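import Pool.Agent.helper88.RF.SpecW

/-! Project RF (MP_16912e_nt), row WEU: `OO` is norm-Euclidean. -/

set_option autoImplicit false

open Finset

namespace Pool.Agent.RF

theorem WEU_norm_eq (x : OO) : x.norm = x.re ^ 2 + x.re * x.im - x.im ^ 2 := by
  rw [QuadraticAlgebra.norm_def]
  ring

theorem WEU_norm_ne (x : OO) (hx : x ≠ 0) : x.norm ≠ 0 := by
  intro h0
  have hirr : Irrational (√5 : ℝ) := by
    have := Nat.Prime.irrational_sqrt (p := 5) (by norm_num)
    simpa using this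
  have h5 : (√5 : ℝ) ^ 2 = 5 := Real.sq_sqrt (by norm_num)
  rw [WEU_norm_eq] at h0
  have h0' : (x.re : ℝ) ^ 2 + x.re * x.im - (x.im : ℝ) ^ 2 = 0 := by exact_mod_cast h0
  have h1 : (2 * (x.re : ℝ) + x.im + x.im * √5) * (2 * (x.re : ℝ) + x.im - x.im * √5) = 0 := by
    linear_combination 4 * h0' - (x.im : ℝ) ^ 2 * h5
  have him : x.im = 0 := by
    by_contra him
    have him' : (x.im : ℝ) ≠ 0 := by exact_mod_cast him
    rcases mul_eq_zero.mp h1 with h | h
    · apply hirr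
      refine ⟨-(2 * (x.re : ℚ) + x.im) / x.im, ?_⟩
      push_cast
      field_simp
      linear_combination (-1 : ℝ) * h
    · apply hirr
      refine ⟨(2 * (x.re : ℚ) + x.im) / x.im, ?_⟩
      push_cast
      field_simp
      linear_combination (1 : ℝ) * h
  have hre : x.re = 0 := by
    rw [him] at h0
    nlinarith
  apply hx
  ext
  · simpa using hre
  · simpa using him

/-- the rational core of the division algorithm: `N > 0`-free version; `s, t` integers, `n ≠ 0` -/
theorem WEU_round (s n : ℤ) (hn : n ≠ 0) : ∃ m : ℤ, 2 * |s - m * n| ≤ |n| := by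
  refine ⟨round ((s : ℚ) / n), ?_⟩
  have h1 := abs_sub_round ((s : ℚ) / n)
  have hn' : (n : ℚ) ≠ 0 := by exact_mod_cast hn
  have h2 : |(s : ℚ) - (round ((s : ℚ) / n) : ℤ) * n| = |(s : ℚ) / n - round ((s : ℚ) / n)| * |(n : ℚ)| := by
    rw [← abs_mul]
    congr 1
    field_simp
  have h3 : 2 * |(s : ℚ) - (round ((s : ℚ) / n) : ℤ) * n| ≤ |(n : ℚ)| := by
    rw [h2]
    nlinarith [abs_nonneg (n : ℚ)]
  exact_mod_cast h3

theorem WEU_form (N s t : ℤ) (hN : N ≠ 0) (hs : 2 * |s| ≤ |N|) (ht : 2 * |t| ≤ |N|) :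
    |s ^ 2 + s * t - t ^ 2| < N ^ 2 := by
  have hN' : 0 < |N| := abs_pos.mpr hN
  have e : N ^ 2 = |N| ^ 2 := (sq_abs N).symm
  rw [e]
  have hs1 := abs_nonneg s
  have ht1 := abs_nonneg t
  have h1 : s ^ 2 = |s| ^ 2 := (sq_abs s).symm
  have h2 : t ^ 2 = |t| ^ 2 := (sq_abs t).symm
  have h3 : |s * t| = |s| * |t| := abs_mul s t
  have h4 := neg_abs_le (s * t)
  have h5 := le_abs_self (s * t)
  rw [h3] at h4 h5
  rw [abs_lt]
  constructor
  · nlinarith
  · nlinarith

theorem WEU_div (x y : OO) (hy : y ≠ 0) : ∃ m : OO, (x - m * y).norm.natAbs < y.norm.natAbs := by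
  have hN : y.norm ≠ 0 := WEU_norm_ne y hy
  obtain ⟨a, ha⟩ := WEU_round (x * star y).re y.norm hN
  obtain ⟨b, hb⟩ := WEU_round (x * star y).im y.norm hN
  refine ⟨⟨a, b⟩, ?_⟩
  have e1 : y * star y = (y.norm : OO) := by
    have := QuadraticAlgebra.algebraMap_norm_eq_mul_star y
    rw [← this]
    rfl
  have e2 : (x - (⟨a, b⟩ : OO) * y) * star y = x * star y - (⟨a, b⟩ : OO) * (y.norm : OO) := by
    rw [← e1]
    generalize star y = y'
    ring
  have e3 : (x - (⟨a, b⟩ : OO) * y).norm * y.norm =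
      ((x * star y).re - a * y.norm) ^ 2 + ((x * star y).re - a * y.norm) * ((x * star y).im - b * y.norm) -
        ((x * star y).im - b * y.norm) ^ 2 := by
    have h1 : ((x - (⟨a, b⟩ : OO) * y) * star y).norm = (x - (⟨a, b⟩ : OO) * y).norm * y.norm := by
      rw [map_mul, QuadraticAlgebra.norm_star]
    rw [← h1, e2, WEU_norm_eq]
    have h2 : (x * star y - (⟨a, b⟩ : OO) * (y.norm : OO)).re = (x * star y).re - a * y.norm := by
      rw [QuadraticAlgebra.re_sub, QuadraticAlgebra.re_mul (⟨a, b⟩ : OO)]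
      simp only [QuadraticAlgebra.re_intCast, QuadraticAlgebra.im_intCast]
      simp
    have h3 : (x * star y - (⟨a, b⟩ : OO) * (y.norm : OO)).im = (x * star y).im - b * y.norm := by
      rw [QuadraticAlgebra.im_sub, QuadraticAlgebra.im_mul (⟨a, b⟩ : OO)]
      simp only [QuadraticAlgebra.re_intCast, QuadraticAlgebra.im_intCast]
      simp
    rw [h2, h3]
  have h4 := WEU_form y.norm _ _ hN ha hb
  rw [← e3, abs_mul] at h4
  have h5 : y.norm ^ 2 = |y.norm| * |y.norm| := by rw [← sq, sq_abs]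
  rw [h5] at h4
  have h6 : |(x - (⟨a, b⟩ : OO) * y).norm| < |y.norm| :=
    lt_of_mul_lt_mul_right h4 (abs_nonneg _)
  rw [Int.abs_eq_natAbs, Int.abs_eq_natAbs] at h6
  exact_mod_cast h6

theorem WEU_domain : IsDomain OO := by
  haveI : Nontrivial OO := ⟨⟨0, 1, fun h => by
    have := congrArg QuadraticAlgebra.norm h
    rw [QuadraticAlgebra.norm_zero, QuadraticAlgebra.norm_one] at this
    exact zero_ne_one this⟩⟩
  haveI : NoZeroDivisors OO := ⟨fun {x y} h => by
    by_contra hc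
    push Not at hc
    have h1 := congrArg QuadraticAlgebra.norm h
    rw [map_mul, QuadraticAlgebra.norm_zero] at h1
    rcases mul_eq_zero.mp h1 with h2 | h2
    · exact WEU_norm_ne x hc.1 h2
    · exact WEU_norm_ne y hc.2 h2⟩
  exact NoZeroDivisors.to_isDomain OO

theorem WEU_pir : IsPrincipalIdealRing OO := by
  classical
  refine ⟨fun I => ?_⟩
  by_cases hI : I = ⊥
  · exact ⟨0, by rw [hI]; simp⟩
  · obtain ⟨y₀, hy₀, hy₀0⟩ := Submodule.exists_mem_ne_zero_of_ne_bot hI
    have hex : ∃ n : ℕ, ∃ y ∈ I, y ≠ 0 ∧ y.norm.natAbs = n := ⟨_, y₀, hy₀, hy₀0, rfl⟩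
    obtain ⟨y, hyI, hy0, hyn⟩ := Nat.find_spec hex
    refine ⟨y, le_antisymm ?_ ?_⟩
    · intro x hx
      obtain ⟨m, hm⟩ := WEU_div x y hy0
      have hmem : x - m * y ∈ I := I.sub_mem hx (I.mul_mem_left m hyI)
      have h0 : x - m * y = 0 := by
        by_contra hne
        have hlt := Nat.find_min hex (m := (x - m * y).norm.natAbs) (by rw [← hyn]; exact hm)
        exact hlt ⟨_, hmem, hne, rfl⟩
      rw [Submodule.mem_span_singleton]
      exact ⟨m, by rw [smul_eq_mul]; exact (sub_eq_zero.mp h0).symm⟩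
    · rw [Submodule.span_singleton_le_iff_mem]
      exact hyI

theorem WEU_proof : WEU_stmt := ⟨WEU_domain, WEU_pir⟩

end Pool.Agent.RF
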