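import Pool.Agent.helper88.RF.SpecW

/-! Project RF (MP_16912e_nt), row WBX: the number of elements of `OO` in a box. -/

set_option autoImplicit false

open Finset

namespace Pool.Agent.RF

theorem WBX_bd (L : ℝ) (x : OO) (ha : |va x| ≤ L) (hb : |vb x| ≤ L) :
    |(x.re : ℝ)| ≤ 3 * L ∧ |(x.im : ℝ)| ≤ 3 * L := by
  have h5 : (√5 : ℝ) ^ 2 = 5 := Real.sq_sqrt (by norm_num)
  have h50 : (0 : ℝ) ≤ √5 := Real.sqrt_nonneg 5
  have hlo : (2 : ℝ) ≤ √5 := by nlinarith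
  have hhi : (√5 : ℝ) ≤ 3 := by nlinarith
  have hL : 0 ≤ L := (abs_nonneg _).trans ha
  simp only [va] at ha
  simp only [vb] at hb
  rw [abs_le] at ha hb
  have him1 : (x.im : ℝ) * √5 ≤ 2 * L := by linarith [ha.2, hb.1]
  have him2 : -(2 * L) ≤ (x.im : ℝ) * √5 := by linarith [ha.1, hb.2]
  have h1 : |(x.im : ℝ)| ≤ L := by
    rw [abs_le]
    constructor
    · by_contra hc
      push Not at hc
      nlinarith
    · by_contra hc
      push Not at hc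
      nlinarith
  have h2 := abs_le.mp h1
  refine ⟨?_, by linarith⟩
  rw [abs_le]
  constructor <;> nlinarith

theorem WBX_proof (hWVA : WVA_stmt) : WBX_stmt := by
  refine ⟨49, by norm_num, fun L hL S hS => ?_⟩
  have h1 : S.card ≤ (Icc (-(⌊3 * L⌋)) (⌊3 * L⌋) ×ˢ Icc (-(⌊3 * L⌋)) (⌊3 * L⌋) : Finset (ℤ × ℤ)).card := by
    apply card_le_card_of_injOn (fun x => (x.re, x.im))
    · intro x hx
      obtain ⟨ha, hb⟩ := hS x hx
      obtain ⟨h1, h2⟩ := WBX_bd L x ha hb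
      rw [abs_le] at h1 h2
      rw [mem_coe, mem_product, mem_Icc, mem_Icc]
      refine ⟨⟨?_, ?_⟩, ?_, ?_⟩
      · rw [neg_le, Int.le_floor]
        push_cast
        linarith
      · rw [Int.le_floor]
        linarith
      · rw [neg_le, Int.le_floor]
        push_cast
        linarith
      · rw [Int.le_floor]
        linarith
    · intro x _ y _ hxy
      simp only [Prod.mk.injEq] at hxy
      ext
      · exact hxy.1
      · exact hxy.2
  have h0 : (0 : ℤ) ≤ ⌊3 * L⌋ := Int.floor_nonneg.mpr (by linarith)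
  have h2 : ((Icc (-(⌊3 * L⌋)) (⌊3 * L⌋) : Finset ℤ).card : ℝ) ≤ 7 * L := by
    rw [Int.card_Icc]
    have h3 : ((⌊3 * L⌋ + 1 - -⌊3 * L⌋).toNat : ℤ) = 2 * ⌊3 * L⌋ + 1 := by
      omega
    have h4 : ((⌊3 * L⌋ + 1 - -⌊3 * L⌋).toNat : ℝ) = 2 * (⌊3 * L⌋ : ℝ) + 1 := by
      exact_mod_cast h3
    rw [h4]
    have h5 : (⌊3 * L⌋ : ℝ) ≤ 3 * L := Int.floor_le _
    linarith
  rw [card_product] at h1
  have h3 : (S.card : ℝ) ≤ ((Icc (-(⌊3 * L⌋)) (⌊3 * L⌋) : Finset ℤ).card : ℝ) *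
      ((Icc (-(⌊3 * L⌋)) (⌊3 * L⌋) : Finset ℤ).card : ℝ) := by
    exact_mod_cast h1
  have h4 := mul_le_mul h2 h2 (Nat.cast_nonneg _) (by linarith)
  linarith [h3.trans h4, (by ring : (7 * L) * (7 * L) = 49 * L ^ 2)]

end Pool.Agent.RF
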