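import Pool.Agent.helper88.RF.SpecW
import Pool.Agent.helper96.FT.P6a

/-! Project RF (MP_16912e_nt), row WGC: the sum of the contents over a box. -/

set_option autoImplicit false

open Finset

namespace Pool.Agent.RF

theorem WGC_bd (L : ℝ) (x : OO) (ha : |va x| ≤ L) (hb : |vb x| ≤ L) :
    |(x.re : ℝ)| ≤ 3 * L ∧ |(x.im : ℝ)| ≤ 3 * L := by
  have h5 : (√5 : ℝ) ^ 2 = 5 := Real.sq_sqrt (by norm_num)
  have h50 : (0 : ℝ) ≤ √5 := Real.sqrt_nonneg 5
  have hlo : (2 : ℝ) ≤ √5 := by nlinarith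
  have hhi : (√5 : ℝ) ≤ 3 := by nlinarith
  have hL : 0 ≤ L := (abs_nonneg _).trans ha
  simp only [va] at ha
  simp only [vb] at hb
  rw [abs_le] at ha hb
  have him1 : (x.im : ℝ) * √5 ≤ 2 * L := by linarith [ha.2, hb.1]
  have him2 : -(2 * L) ≤ (x.im : ℝ) * √5 := by linarith [ha.1, hb.2]
  have h1 : |(x.im : ℝ)| ≤ L := by
    rw [abs_le]
    constructor
    · by_contra hc
      push Not at hc
      nlinarith
    · by_contra hc
      push Not at hc
      nlinarith
  have h2 := abs_le.mp h1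
  refine ⟨?_, by linarith⟩
  rw [abs_le]
  constructor <;> nlinarith

theorem WGC_proof (hWVA : WVA_stmt) : WGC_stmt := by
  obtain ⟨C, hC⟩ := helper3.FT.gcd_sum
  refine ⟨48 * (|C| + 1), by nlinarith [abs_nonneg C], fun M hM S hS => ?_⟩
  set L : ℕ := ⌈3 * M⌉₊ with hL
  have hL1 : 3 * M ≤ L := Nat.le_ceil _
  have hL2 : (L : ℝ) ≤ 4 * M := by
    have := Nat.ceil_lt_add_one (show (0 : ℝ) ≤ 3 * M by linarith)
    linarith
  have hL3 : 1 ≤ L := by
    have : (1 : ℝ) ≤ L := by linarith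
    exact_mod_cast this
  have h1 : ∑ x ∈ S, (cnt x : ℝ) ≤ ∑ a ∈ Icc (-(L : ℤ)) L, ∑ b ∈ Icc (-(L : ℤ)) L, (Int.gcd a b : ℝ) := by
    rw [← sum_product' (Icc (-(L : ℤ)) L) (Icc (-(L : ℤ)) L) (fun a b => (Int.gcd a b : ℝ))]
    have hinj : Set.InjOn (fun x : OO => (x.re, x.im)) (S : Set OO) := by
      intro x _ y _ hxy
      simp only [Prod.mk.injEq] at hxy
      ext
      · exact hxy.1
      · exact hxy.2
    have h2 : ∑ x ∈ S, (cnt x : ℝ) = ∑ p ∈ S.image (fun x : OO => (x.re, x.im)), (Int.gcd p.1 p.2 : ℝ) := by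
      rw [sum_image hinj]
      rfl
    rw [h2]
    apply sum_le_sum_of_subset_of_nonneg
    · intro p hp
      rw [mem_image] at hp
      obtain ⟨x, hx, rfl⟩ := hp
      obtain ⟨-, ha, hb⟩ := hS x hx
      obtain ⟨h1, h2⟩ := WGC_bd M x ha hb
      have h3 := h1.trans hL1
      have h4 := h2.trans hL1
      rw [abs_le] at h3 h4
      rw [mem_product, mem_Icc, mem_Icc]
      refine ⟨⟨?_, ?_⟩, ?_, ?_⟩
      · exact_mod_cast h3.1
      · exact_mod_cast h3.2
      · exact_mod_cast h4.1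
      · exact_mod_cast h4.2
    · intro p _ _
      positivity
  have h2 := h1.trans (hC L hL3)
  have hlogL : Real.log L ≤ 2 + Real.log M := by
    have h3 : Real.log L ≤ Real.log (4 * M) := Real.log_le_log (by linarith) hL2
    rw [Real.log_mul (by norm_num) (by linarith)] at h3
    have h4 : Real.log 4 ≤ 2 := by
      have h5 : Real.log 4 = 2 * Real.log 2 := by
        rw [show (4 : ℝ) = 2 ^ 2 by norm_num, Real.log_pow]
        norm_num
      linarith [Real.log_two_lt_d9]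
    linarith
  have hlogM : 0 ≤ Real.log M := Real.log_nonneg hM
  have hlogL0 : 0 ≤ Real.log L := Real.log_nonneg (by exact_mod_cast hL3)
  calc ∑ x ∈ S, (cnt x : ℝ) ≤ C * (L : ℝ) ^ 2 * (1 + Real.log L) := h2
    _ ≤ (|C| + 1) * (L : ℝ) ^ 2 * (1 + Real.log L) := by
        have : C ≤ |C| + 1 := by linarith [le_abs_self C]
        gcongr
    _ ≤ (|C| + 1) * (4 * M) ^ 2 * (3 * (1 + Real.log M)) := by
        have : 1 + Real.log L ≤ 3 * (1 + Real.log M) := by linarith
        gcongr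
    _ = 48 * (|C| + 1) * M ^ 2 * (1 + Real.log M) := by ring

end Pool.Agent.RF
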