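import Pool.Agent.helper88.RF.SpecW

/-! Project RF (MP_16912e_nt), row WRE: existence of the residues. -/

set_option autoImplicit false

open Finset

namespace Pool.Agent.RF

theorem WRE_solve (k u : OO) (hk : IsCoprime (k ^ 3) u)
    (hrep : ∀ x : OO, ∃ n : ℤ, k ^ 3 ∣ x - (n : OO)) (y : OO) : ∃ n : ℤ, k ^ 3 ∣ u * (n : OO) - y := by
  obtain ⟨a, b, hab⟩ := hk
  obtain ⟨n, d, hd⟩ := hrep (b * y)
  refine ⟨n, -(u * d) - a * y, ?_⟩
  linear_combination (-u) * hd + y * hab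

theorem WRE_proof (hWIN : WIN_stmt) : WRE_stmt := by
  intro k g c hq h5 hg
  obtain ⟨h1, h2, -, -, hrep⟩ := hWIN k hq h5
  have hcop : IsCoprime (k ^ 3) (star g * r5 * star k ^ 2) :=
    IsCoprime.pow_left ((hg.mul_right h2).mul_right h1.pow_right)
  obtain ⟨α, hα⟩ := WRE_solve k _ hcop hrep (star g * (c : OO) * star k ^ 2 + 2 * ph * (c : OO) * k ^ 2 * g)
  obtain ⟨β, hβ⟩ := WRE_solve k _ hcop hrep (star g * (c : OO) * star k ^ 2 + 4 * ph ^ 2 * (c : OO) * k ^ 2 * g)
  obtain ⟨γ, hγ⟩ := WRE_solve k _ hcop hrep (-(star g * (c : OO) * star k ^ 2) + 2 * ph ^ 3 * (c : OO) * k ^ 2 * g)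
  refine ⟨α, β, γ, ⟨?_, ?_, ?_⟩⟩
  · have e : star g * (r5 * (α : OO) - (c : OO)) * star k ^ 2 - 2 * ph * (c : OO) * k ^ 2 * g =
        star g * r5 * star k ^ 2 * (α : OO) -
          (star g * (c : OO) * star k ^ 2 + 2 * ph * (c : OO) * k ^ 2 * g) := by
      generalize star g = g', star k = k'
      ring
    rw [e]
    exact hα
  · have e : star g * (r5 * (β : OO) - (c : OO)) * star k ^ 2 - 4 * ph ^ 2 * (c : OO) * k ^ 2 * g =
        star g * r5 * star k ^ 2 * (β : OO) -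
          (star g * (c : OO) * star k ^ 2 + 4 * ph ^ 2 * (c : OO) * k ^ 2 * g) := by
      generalize star g = g', star k = k'
      ring
    rw [e]
    exact hβ
  · have e : star g * (r5 * (γ : OO) + (c : OO)) * star k ^ 2 - 2 * ph ^ 3 * (c : OO) * k ^ 2 * g =
        star g * r5 * star k ^ 2 * (γ : OO) -
          (-(star g * (c : OO) * star k ^ 2) + 2 * ph ^ 3 * (c : OO) * k ^ 2 * g) := by
      generalize star g = g', star k = k'
      ring
    rw [e]
    exact hγ

end Pool.Agent.RF
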