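import Pool.Agent.helper88.RF.SpecW

/-! Project RF (MP_16912e_nt), row WVA: the two real embeddings of `OO`. -/

set_option autoImplicit false

open Finset

namespace Pool.Agent.RF

theorem WVA_sq : (√5 : ℝ) ^ 2 = 5 := Real.sq_sqrt (by norm_num)

theorem WVA_norm (x : OO) : va x * vb x = x.norm := by
  have h5 := WVA_sq
  rw [QuadraticAlgebra.norm_def]
  simp only [va, vb]
  push_cast
  linear_combination (-(x.im : ℝ) ^ 2 / 4) * h5

theorem WVA_norm_ne (x : OO) (hx : x ≠ 0) : x.norm ≠ 0 := by
  intro h0
  have hirr : Irrational (√5 : ℝ) := by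
    have := Nat.Prime.irrational_sqrt (p := 5) (by norm_num)
    simpa using this
  have h1 : va x * vb x = 0 := by rw [WVA_norm, h0, Int.cast_zero]
  have him : x.im = 0 := by
    by_contra him
    have him' : (x.im : ℝ) ≠ 0 := by exact_mod_cast him
    rcases mul_eq_zero.mp h1 with h | h
    · apply hirr
      refine ⟨-(2 * (x.re : ℚ) + x.im) / x.im, ?_⟩
      push_cast
      simp only [va] at h
      field_simp
      linear_combination (-2 : ℝ) * h
    · apply hirr
      refine ⟨(2 * (x.re : ℚ) + x.im) / x.im, ?_⟩
      push_cast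
      simp only [vb] at h
      field_simp
      linear_combination (2 : ℝ) * h
  have hre : x.re = 0 := by
    rw [QuadraticAlgebra.norm_def, him] at h0
    nlinarith
  apply hx
  ext
  · simpa using hre
  · simpa using him

theorem WVA_proof : WVA_stmt := by
  have h5 := WVA_sq
  refine ⟨?_, ?_, ?_, ?_, ?_, WVA_norm, ?_⟩
  · intro x y
    simp only [va, QuadraticAlgebra.re_mul, QuadraticAlgebra.im_mul]
    push_cast
    linear_combination (-(x.im : ℝ) * y.im / 4) * h5
  · intro x y
    simp only [vb, QuadraticAlgebra.re_mul, QuadraticAlgebra.im_mul]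
    push_cast
    linear_combination (-(x.im : ℝ) * y.im / 4) * h5
  · intro x y
    simp only [va, vb, QuadraticAlgebra.re_add, QuadraticAlgebra.im_add,
      QuadraticAlgebra.re_sub, QuadraticAlgebra.im_sub]
    push_cast
    refine ⟨?_, ?_, ?_, ?_⟩ <;> ring
  · intro n
    simp only [va, vb, QuadraticAlgebra.re_intCast, QuadraticAlgebra.im_intCast]
    simp
  · intro x
    simp only [va, vb, QuadraticAlgebra.re_star, QuadraticAlgebra.im_star]
    push_cast
    constructor <;> ring
  · intro x hx
    have h1 := WVA_norm_ne x hx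
    have h2 := WVA_norm x
    have h3 : va x * vb x ≠ 0 := by
      rw [h2]
      exact_mod_cast h1
    refine ⟨h1, ?_, left_ne_zero_of_mul h3, right_ne_zero_of_mul h3⟩
    rw [← abs_mul, h2]
    have : (1 : ℤ) ≤ |x.norm| := Int.one_le_abs h1
    exact_mod_cast this

end Pool.Agent.RF
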